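import Pool.Agent.Y743.LR.NT5
import Pool.Agent.W54.TCF.NT

set_option autoImplicit false

/-! # The mean and the moments of the normalised gaps -/

open Filter Topology Finset

namespace Pool.Agent.Q31.GP

open SG (ord NZ)
open Pool.Agent.Y743.LR (dl)

lemma NZ_eq (t : ℝ) : NZ t = H370.NN riemannZeta 0 t := by
  unfold SG.NZ H370.NN
  have h : {s : ℂ | riemannZeta s = 0 ∧ 0 < s.re ∧ s.re < 1 ∧ 0 < s.im ∧ s.im ≤ t} =
      H370.zset riemannZeta 0 t := by
    ext s
    simp only [H370.zset, Set.mem_ofPred_eq]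
    tauto
  rw [h]
  rfl

/-- `X(T) = (T / 2π) log T` -/
noncomputable def X (T : ℝ) : ℝ := T / (2 * Real.pi) * Real.log T

lemma X_mono {s t : ℝ} (hs : 1 ≤ s) (hst : s ≤ t) : X s ≤ X t := by
  unfold X
  have hpi := Real.pi_pos
  have h1 : Real.log s ≤ Real.log t := Real.log_le_log (by linarith) hst
  have h0 : 0 ≤ Real.log s := Real.log_nonneg hs
  have h2 : s / (2 * Real.pi) ≤ t / (2 * Real.pi) := by gcongr
  have h3 : 0 ≤ t / (2 * Real.pi) := by
    have : 0 ≤ t := by linarith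
    positivity
  exact mul_le_mul h2 h1 h0 h3

lemma X_step (ε : ℝ) (hε : 0 < ε) : ∀ᶠ T : ℝ in atTop, X T ≤ (1 + ε) * X (T - 1) := by
  have hpi := Real.pi_pos
  filter_upwards [eventually_ge_atTop (max 10 (1 + 4 / ε))] with T hT
  have h10 : 10 ≤ T := (le_max_left _ _).trans hT
  have hε2 : 1 + 4 / ε ≤ T := (le_max_right _ _).trans hT
  have h1 : 4 ≤ ε * (T - 1) := by
    have : 4 / ε ≤ T - 1 := by linarith
    rw [div_le_iff₀ hε] at this
    linarith
  have hlog : Real.log T ≤ Real.log (T - 1) + 1 / (T - 1) := by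
    have h2 : Real.log T = Real.log (T - 1) + Real.log (T / (T - 1)) := by
      have hne : T - 1 ≠ 0 := by linarith
      rw [← Real.log_mul (by linarith) (by
        have : 0 < T / (T - 1) := div_pos (by linarith) (by linarith)
        exact this.ne')]
      congr 1
      field_simp
    rw [h2]
    have h3 : Real.log (T / (T - 1)) ≤ T / (T - 1) - 1 :=
      Real.log_le_sub_one_of_pos (div_pos (by linarith) (by linarith))
    have h4 : T / (T - 1) - 1 = 1 / (T - 1) := by
      have : T - 1 ≠ 0 := by linarith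
      rw [div_sub_one this]
      congr 1
      ring
    linarith
  have hlog1 : 1 ≤ Real.log (T - 1) := by
    rw [Real.le_log_iff_exp_le (by linarith)]
    have := Real.exp_one_lt_d9
    linarith
  unfold X
  have h5 : T * Real.log T ≤ (1 + ε) * ((T - 1) * Real.log (T - 1)) := by
    have h6 : T * Real.log T ≤ T * Real.log (T - 1) + T / (T - 1) := by
      have := mul_le_mul_of_nonneg_left hlog (by linarith : 0 ≤ T)
      calc T * Real.log T ≤ T * (Real.log (T - 1) + 1 / (T - 1)) := this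
        _ = _ := by ring
    have h7 : T / (T - 1) ≤ 2 := by
      rw [div_le_iff₀ (by linarith)]
      linarith
    have h8 : 4 * Real.log (T - 1) ≤ ε * (T - 1) * Real.log (T - 1) :=
      mul_le_mul_of_nonneg_right h1 (by linarith)
    nlinarith
  calc T / (2 * Real.pi) * Real.log T = T * Real.log T / (2 * Real.pi) := by ring
    _ ≤ (1 + ε) * ((T - 1) * Real.log (T - 1)) / (2 * Real.pi) := by gcongr
    _ = _ := by ring

/-- the `N`-th ordinate -/
lemma ord_asymp (ε : ℝ) (hε : 0 < ε) : ∀ᶠ N : ℕ in atTop,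
    X (ord N) ≤ (1 + ε) * N ∧ (N : ℝ) ≤ (1 + ε) * X (ord N) := by
  wlog hε1 : ε ≤ 1 generalizing ε with H
  · filter_upwards [H 1 one_pos le_rfl, eventually_ge_atTop 1,
      SG.ord_tendsto.eventually_ge_atTop 1] with N hN hN1 hN2
    have hX : 0 ≤ X (ord N) := by
      unfold X
      have := Real.log_nonneg hN2
      have := Real.pi_pos
      positivity
    have hN0 : (0 : ℝ) ≤ N := Nat.cast_nonneg N
    constructor
    · refine hN.1.trans ?_
      gcongr
      linarith
    · refine hN.2.trans ?_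
      gcongr
      linarith
  obtain ⟨T0, hT0, hNN⟩ := Pool.Agent.W54.TCF.NT_asymp' (ε / 8) (by positivity)
  filter_upwards [SG.ord_tendsto.eventually_ge_atTop (T0 + 1), eventually_ge_atTop 1,
    SG.ord_tendsto.eventually (X_step (ε / 8) (by positivity))] with N h1 h2 h3
  have hX : 0 ≤ X (ord N - 1) := by
    unfold X
    have := Real.log_nonneg (by linarith : 1 ≤ ord N - 1)
    have := Real.pi_pos
    have : 0 ≤ ord N - 1 := by linarith
    positivity
  constructor
  · have h4 : NZ (ord N - 1) < N := by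
      by_contra hcon
      push Not at hcon
      have := (SG.ord_le_iff h2 (ord N - 1)).2 hcon
      linarith
    have h5 := (hNN (ord N - 1) (by linarith)).1
    rw [← NZ_eq] at h5
    have h6 : (NZ (ord N - 1) : ℝ) ≤ N := by exact_mod_cast h4.le
    have h7 : (1 - ε / 8) * X (ord N - 1) ≤ N := h5.trans h6
    have h8 : 1 + ε / 8 ≤ (1 + ε) * (1 - ε / 8) := by nlinarith
    calc X (ord N) ≤ (1 + ε / 8) * X (ord N - 1) := h3
      _ ≤ (1 + ε) * (1 - ε / 8) * X (ord N - 1) := mul_le_mul_of_nonneg_right h8 hX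
      _ = (1 + ε) * ((1 - ε / 8) * X (ord N - 1)) := by ring
      _ ≤ _ := mul_le_mul_of_nonneg_left h7 (by linarith)
  · have h4 : N ≤ NZ (ord N) := SG.le_NZ_ord h2
    have h5 := (hNN (ord N) (by linarith)).2
    rw [← NZ_eq] at h5
    have h6 : (N : ℝ) ≤ NZ (ord N) := by exact_mod_cast h4
    have h7 : (N : ℝ) ≤ (1 + ε / 8) * X (ord N) := h6.trans h5
    have h8 : 0 ≤ X (ord N) := by
      unfold X
      have := Real.log_nonneg (by linarith : 1 ≤ ord N)
      have := Real.pi_pos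
      have : 0 ≤ ord N := by linarith
      positivity
    nlinarith

lemma dl_nonneg : ∃ n0 : ℕ, 1 ≤ n0 ∧ ∀ n : ℕ, n0 ≤ n → 0 ≤ dl n := by
  have hpi := Real.pi_gt_three
  obtain ⟨n0, h⟩ := (SG.ord_tendsto.eventually_ge_atTop (2 * Real.pi)).exists_forall_of_atTop
  refine ⟨max 1 n0, le_max_left _ _, fun n hn => ?_⟩
  have h1 := h n ((le_max_right _ _).trans hn)
  have h2 : 1 ≤ n := (le_max_left _ _).trans hn
  unfold dl
  apply div_nonneg _ (by positivity)
  apply mul_nonneg
  · exact sub_nonneg.2 (SG.ord_mono h2 (by omega))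
  · apply Real.log_nonneg
    rw [le_div_iff₀ (by positivity)]
    linarith

lemma tel (a N : ℕ) (h : a ≤ N) :
    ∑ n ∈ Finset.Ico a N, (ord (n + 1) - ord n) = ord N - ord a :=
  Finset.sum_Ico_sub ord h

lemma dl_le {n : ℕ} (hn : 1 ≤ n) {T : ℝ} (hT : ord n ≤ T) :
    dl n ≤ (ord (n + 1) - ord n) * (Real.log T / (2 * Real.pi)) := by
  have hpi := Real.pi_gt_three
  have hp := SG.ord_pos hn
  have hd : 0 ≤ ord (n + 1) - ord n := sub_nonneg.2 (SG.ord_mono hn (by omega))
  have hl : Real.log (ord n / (2 * Real.pi)) ≤ Real.log T := by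
    apply Real.log_le_log (by positivity)
    refine (div_le_self hp.le (by linarith)).trans hT
  unfold dl
  calc (ord (n + 1) - ord n) * Real.log (ord n / (2 * Real.pi)) / (2 * Real.pi) ≤
      (ord (n + 1) - ord n) * Real.log T / (2 * Real.pi) := by gcongr
    _ = _ := by ring

lemma mean_up (ε : ℝ) (hε : 0 < ε) :
    ∀ᶠ N : ℕ in atTop, ∑ n ∈ Finset.Icc 1 N, dl n ≤ (1 + ε) * N := by
  have hpi := Real.pi_pos
  have h1 : ∀ᶠ N : ℕ in atTop, X (ord (N + 1)) ≤ (1 + ε / 2) * ((N + 1 : ℕ) : ℝ) :=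
    (tendsto_add_atTop_nat 1).eventually ((ord_asymp (ε / 2) (by positivity)).mono fun N h => h.1)
  have h2 : Tendsto (fun N : ℕ => ord (N + 1)) atTop atTop :=
    SG.ord_tendsto.comp (tendsto_add_atTop_nat 1)
  filter_upwards [h1, h2.eventually_ge_atTop 1,
    eventually_ge_atTop ⌈2 * (1 + ε / 2) / ε⌉₊] with N h1 h2 h3
  have h3' : 2 * (1 + ε / 2) / ε ≤ N := (Nat.le_ceil _).trans (by exact_mod_cast h3)
  rw [div_le_iff₀ hε] at h3'
  have h4 : ∑ n ∈ Finset.Icc 1 N, dl n ≤
      ∑ n ∈ Finset.Ico 1 (N + 1), (ord (n + 1) - ord n) *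
        (Real.log (ord (N + 1)) / (2 * Real.pi)) := by
    have e : Finset.Icc 1 N = Finset.Ico 1 (N + 1) := by
      ext n; rw [Finset.mem_Icc, Finset.mem_Ico]; omega
    rw [e]
    refine Finset.sum_le_sum fun n hn => ?_
    rw [Finset.mem_Ico] at hn
    exact dl_le hn.1 (SG.ord_mono hn.1 hn.2.le)
  rw [← Finset.sum_mul, tel 1 (N + 1) (by omega)] at h4
  have h5 : (ord (N + 1) - ord 1) * (Real.log (ord (N + 1)) / (2 * Real.pi)) ≤ X (ord (N + 1)) := by
    unfold X
    have h6 := SG.ord_pos (le_refl 1)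
    have h7 : 0 ≤ Real.log (ord (N + 1)) / (2 * Real.pi) := by
      have := Real.log_nonneg h2
      positivity
    have h8 : ord (N + 1) / (2 * Real.pi) * Real.log (ord (N + 1)) =
        ord (N + 1) * (Real.log (ord (N + 1)) / (2 * Real.pi)) := by ring
    rw [h8]
    exact mul_le_mul_of_nonneg_right (by linarith) h7
  push_cast at h1
  nlinarith

lemma sum_initial (n0 : ℕ) (a : ℕ) (h : ∀ n, n0 ≤ n → 0 ≤ dl n) :
    -(∑ n ∈ Finset.range n0, |dl n|) ≤ ∑ n ∈ Finset.Ico 1 a, dl n := by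
  have h1 : ∀ n ∈ Finset.Ico 1 a, -(if n < n0 then |dl n| else 0) ≤ dl n := by
    intro n _
    split_ifs with h2
    · exact neg_abs_le _
    · rw [neg_zero]
      exact h n (not_lt.mp h2)
  refine le_trans ?_ (Finset.sum_le_sum h1)
  rw [Finset.sum_neg_distrib, neg_le_neg_iff, ← Finset.sum_filter]
  refine Finset.sum_le_sum_of_subset_of_nonneg ?_ fun _ _ _ => abs_nonneg _
  intro n hn
  rw [Finset.mem_filter] at hn
  rw [Finset.mem_range]
  exact hn.2

lemma mean_low (ε : ℝ) (hε : 0 < ε) :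
    ∀ᶠ N : ℕ in atTop, (1 - ε) * N ≤ ∑ n ∈ Finset.Icc 1 N, dl n := by
  wlog hε1 : ε ≤ 1 generalizing ε with H
  · filter_upwards [H 1 one_pos le_rfl] with N hN
    refine le_trans ?_ hN
    have : (0 : ℝ) ≤ N := Nat.cast_nonneg N
    nlinarith
  have hpi := Real.pi_pos
  obtain ⟨n0, hn01, hn0⟩ := dl_nonneg
  obtain ⟨K, hK⟩ : ∃ K : ℝ, K = ∑ n ∈ Finset.range n0, |dl n| := ⟨_, rfl⟩
  have hK0 : 0 ≤ K := by rw [hK]; exact Finset.sum_nonneg fun _ _ => abs_nonneg _
  obtain ⟨η, hη⟩ : ∃ η : ℝ, η = ε / 16 := ⟨_, rfl⟩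
  have hη0 : 0 < η := by rw [hη]; positivity
  obtain ⟨T0, hT0, hNN⟩ := Pool.Agent.W54.TCF.NT_asymp' (1 / 8) (by norm_num)
  have hlim : Tendsto (fun N : ℕ => ord (N + 1)) atTop atTop :=
    SG.ord_tendsto.comp (tendsto_add_atTop_nat 1)
  have h1 : ∀ᶠ N : ℕ in atTop, ((N + 1 : ℕ) : ℝ) ≤ (1 + η) * X (ord (N + 1)) :=
    (tendsto_add_atTop_nat 1).eventually ((ord_asymp η hη0).mono fun N h => h.2)
  filter_upwards [h1, hlim.eventually_ge_atTop (max 10 (T0 / η)),
    (Real.tendsto_log_atTop.comp hlim).eventually_ge_atTop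
      ((Real.log (2 * Real.pi) + |Real.log η|) / η),
    eventually_ge_atTop (max 1 ⌈K / η⌉₊)] with N h1 h2 h3 h4
  obtain ⟨T, hT⟩ : ∃ T : ℝ, T = ord (N + 1) := ⟨_, rfl⟩
  rw [← hT] at h1 h2
  simp only [Function.comp] at h3
  rw [← hT] at h3
  have hT10 : 10 ≤ T := (le_max_left _ _).trans h2
  have hTη : T0 ≤ η * T := by
    have : T0 / η ≤ T := (le_max_right _ _).trans h2
    rw [div_le_iff₀ hη0] at this
    linarith
  have hlogT : 0 < Real.log T := Real.log_pos (by linarith)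
  have hX0 : 0 ≤ X T := by unfold X; positivity
  have hN1 : 1 ≤ N := (le_max_left _ _).trans h4
  have hNK : K ≤ η * N := by
    have : K / η ≤ N := (Nat.le_ceil _).trans (by exact_mod_cast (le_max_right _ _).trans h4)
    rw [div_le_iff₀ hη0] at this
    linarith
  -- the first index above η T
  obtain ⟨a, ha⟩ : ∃ a : ℕ, a = NZ (η * T) + 1 := ⟨_, rfl⟩
  have ha1 : 1 ≤ a := by omega
  have haη : ∀ n, a ≤ n → η * T < ord n := by
    intro n hn
    by_contra hcon
    push Not at hcon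
    have := (SG.ord_le_iff (by omega : 1 ≤ n) _).1 hcon
    omega
  have ha2 : ord a ≤ 2 * (η * T) := by
    have h5 := (hNN (η * T) hTη).2
    have h6 := (hNN (2 * (η * T)) (by linarith)).1
    rw [← NZ_eq] at h5 h6
    have h7 : X (η * T) * (9 / 8) < X (η * T) * (14 / 8) := by
      have : 0 < X (η * T) := by
        unfold X
        have := Real.log_pos (by linarith : 1 < η * T)
        have : 0 < η * T := by linarith
        positivity
      nlinarith
    have h8 : 2 * X (η * T) ≤ X (2 * (η * T)) := by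
      unfold X
      have h9 : Real.log (η * T) ≤ Real.log (2 * (η * T)) :=
        Real.log_le_log (by linarith) (by linarith)
      have : 0 ≤ 2 * (η * T) / (2 * Real.pi) := by
        have : 0 ≤ η * T := by linarith
        positivity
      calc 2 * (η * T / (2 * Real.pi) * Real.log (η * T)) =
          2 * (η * T) / (2 * Real.pi) * Real.log (η * T) := by ring
        _ ≤ _ := mul_le_mul_of_nonneg_left h9 this
    have h9 : (NZ (η * T) : ℝ) < NZ (2 * (η * T)) := by
      have e1 : η * T / (2 * Real.pi) * Real.log (η * T) = X (η * T) := rfl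
      have e2 : 2 * (η * T) / (2 * Real.pi) * Real.log (2 * (η * T)) = X (2 * (η * T)) := rfl
      rw [e1] at h5
      rw [e2] at h6
      nlinarith
    have h10 : NZ (η * T) < NZ (2 * (η * T)) := by exact_mod_cast h9
    exact (SG.ord_le_iff ha1 _).2 (by omega)
  have haN : a ≤ N + 1 := by
    by_contra hcon
    push Not at hcon
    have := SG.ord_mono (by omega : 1 ≤ N + 1) hcon.le
    rw [← hT] at this
    nlinarith
  have e : Finset.Icc 1 N = Finset.Ico 1 (N + 1) := by
    ext n; rw [Finset.mem_Icc, Finset.mem_Ico]; omega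
  rw [e, ← Finset.sum_Ico_consecutive _ ha1 haN]
  have h5 := sum_initial n0 a hn0
  rw [← hK] at h5
  have h6 : (T - ord a) * ((1 - η) * Real.log T / (2 * Real.pi)) ≤
      ∑ n ∈ Finset.Ico a (N + 1), dl n := by
    rw [hT, ← tel a (N + 1) haN, Finset.sum_mul]
    refine Finset.sum_le_sum fun n hn => ?_
    rw [Finset.mem_Ico] at hn
    have h7 : 0 ≤ ord (n + 1) - ord n := sub_nonneg.2 (SG.ord_mono (by omega) (by omega))
    have h8 := haη n hn.1
    have h9 : (1 - η) * Real.log T ≤ Real.log (ord n / (2 * Real.pi)) := by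
      rw [Real.log_div (by linarith [hTη, hT0]) (by positivity)]
      have h10 : Real.log (η * T) ≤ Real.log (ord n) := Real.log_le_log (by linarith) h8.le
      rw [Real.log_mul hη0.ne' (by linarith)] at h10
      rw [div_le_iff₀ hη0] at h3
      have := neg_abs_le (Real.log η)
      linarith
    unfold dl
    rw [← hT]
    calc (ord (n + 1) - ord n) * ((1 - η) * Real.log T / (2 * Real.pi)) ≤
        (ord (n + 1) - ord n) * (Real.log (ord n / (2 * Real.pi)) / (2 * Real.pi)) := by gcongr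
      _ = _ := by ring
  have h7 : (1 - 3 * η) * X T ≤ (T - ord a) * ((1 - η) * Real.log T / (2 * Real.pi)) := by
    have h8 : (1 - 2 * η) * T ≤ T - ord a := by linarith
    have h9 : 0 ≤ (1 - η) * Real.log T / (2 * Real.pi) := by
      have : 0 ≤ 1 - η := by rw [hη]; linarith
      positivity
    have h10 := mul_le_mul_of_nonneg_right h8 h9
    refine le_trans ?_ h10
    have h11 : (1 - 2 * η) * T * ((1 - η) * Real.log T / (2 * Real.pi)) =
        (1 - 2 * η) * (1 - η) * X T := by unfold X; ring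
    rw [h11]
    exact mul_le_mul_of_nonneg_right (by nlinarith) hX0
  push_cast at h1
  have h8 : (1 - η) * (N : ℝ) ≤ X T := by
    have hN0 : (0 : ℝ) ≤ N := Nat.cast_nonneg N
    nlinarith
  have h9 : (1 - 3 * η) * ((1 - η) * (N : ℝ)) ≤ (1 - 3 * η) * X T :=
    mul_le_mul_of_nonneg_left h8 (by rw [hη]; linarith)
  have hN0 : (0 : ℝ) ≤ N := Nat.cast_nonneg N
  have h10 : (1 - ε) * (N : ℝ) ≤ (1 - 3 * η) * ((1 - η) * (N : ℝ)) - η * N := by
    have : ε = 16 * η := by rw [hη]; ring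
    rw [this]
    nlinarith
  linarith

/-- the mean of the gaps is one -/
theorem mean (ε : ℝ) (hε : 0 < ε) :
    ∀ᶠ N : ℕ in atTop, |∑ n ∈ Finset.Icc 1 N, (dl n - 1)| ≤ ε * N := by
  filter_upwards [mean_up ε hε, mean_low ε hε] with N h1 h2
  rw [Finset.sum_sub_distrib, Finset.sum_const, Nat.card_Icc, Nat.add_sub_cancel, nsmul_eq_mul,
    mul_one, abs_le]
  constructor <;> linarith

lemma dl_le_dlt {n : ℕ} (hn : 1 ≤ n) : dl n ≤ LG.dlt n := by
  have hpi := Real.pi_gt_three
  have hp := SG.ord_pos hn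
  have hm := SG.ord_mono hn (Nat.le_succ n)
  unfold dl LG.dlt
  apply div_le_div_of_nonneg_right _ (by positivity)
  rw [Real.log_div hp.ne' (by positivity)]
  have h1 : Real.log (ord n) ≤ Real.log (ord (n + 1)) := Real.log_le_log hp hm
  have h2 : 0 ≤ Real.log (2 * Real.pi) := Real.log_nonneg (by linarith)
  have h3 : 0 < ord (n + 1) := hp.trans_le hm
  nlinarith [mul_nonneg h3.le (sub_nonneg.2 h1), mul_nonneg (sub_nonneg.2 hm) h2]

/-- third moments -/
theorem cube (hRH : RiemannHypothesis) : ∃ C : ℝ, 0 < C ∧ ∀ N : ℕ, 1 ≤ N →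
    ∑ n ∈ Finset.Icc 1 N, |dl n| ^ 3 ≤ C * N := by
  obtain ⟨C, hC, h⟩ := Pool.Agent.Y743.LR.cube_sum (H177.Lat.rhs_of hRH)
  obtain ⟨n0, hn01, hn0⟩ := dl_nonneg
  obtain ⟨K, hK⟩ : ∃ K : ℝ, K = ∑ n ∈ Finset.range n0, |dl n| ^ 3 := ⟨_, rfl⟩
  have hK0 : 0 ≤ K := by rw [hK]; exact Finset.sum_nonneg fun _ _ => by positivity
  refine ⟨C + K, by positivity, fun N hN => ?_⟩
  have h1 : ∀ n ∈ Finset.Icc 1 N, |dl n| ^ 3 ≤ (max (LG.dlt n) 0) ^ 3 +
      (if n < n0 then |dl n| ^ 3 else 0) := by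
    intro n hn
    rw [Finset.mem_Icc] at hn
    have h2 : 0 ≤ (max (LG.dlt n) 0) ^ 3 := by positivity
    split_ifs with h3
    · linarith
    · rw [add_zero, abs_of_nonneg (hn0 n (not_lt.mp h3))]
      exact pow_le_pow_left₀ (hn0 n (not_lt.mp h3)) ((dl_le_dlt hn.1).trans (le_max_left _ _)) 3
  refine (Finset.sum_le_sum h1).trans ?_
  rw [Finset.sum_add_distrib, ← Finset.sum_filter]
  have h2 : ∑ n ∈ (Finset.Icc 1 N).filter (fun n => n < n0), |dl n| ^ 3 ≤ K := by
    rw [hK]
    refine Finset.sum_le_sum_of_subset_of_nonneg ?_ fun _ _ _ => by positivity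
    intro n hn
    rw [Finset.mem_filter] at hn
    rw [Finset.mem_range]
    exact hn.2
  have h3 := h N
  have h4 : (1 : ℝ) ≤ N := by exact_mod_cast hN
  nlinarith

/-- second moments -/
theorem sq (hRH : RiemannHypothesis) : ∃ C : ℝ, 0 < C ∧ ∀ N : ℕ, 1 ≤ N →
    ∑ n ∈ Finset.Icc 1 N, (dl n - 1) ^ 2 ≤ C * N := by
  obtain ⟨C, hC, h⟩ := cube hRH
  refine ⟨2 * C + 4, by positivity, fun N hN => ?_⟩
  have h1 : ∀ n ∈ Finset.Icc 1 N, (dl n - 1) ^ 2 ≤ 2 * |dl n| ^ 3 + 4 := by
    intro n _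
    have h2 : 0 ≤ |dl n| := abs_nonneg _
    have h3 : dl n ^ 2 = |dl n| ^ 2 := (sq_abs _).symm
    have h4 : -|dl n| ≤ dl n := neg_abs_le _
    rcases le_or_gt |dl n| 1 with h5 | h5
    · have : 0 ≤ |dl n| ^ 3 := by positivity
      nlinarith
    · have h6 : |dl n| ^ 2 ≤ |dl n| ^ 3 := by
        calc |dl n| ^ 2 = |dl n| ^ 2 * 1 := by ring
          _ ≤ |dl n| ^ 2 * |dl n| := by gcongr
          _ = _ := by ring
      nlinarith [sq_nonneg (dl n + 1)]
  refine (Finset.sum_le_sum h1).trans ?_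
  rw [Finset.sum_add_distrib, ← Finset.mul_sum, Finset.sum_const, Nat.card_Icc,
    Nat.add_sub_cancel, nsmul_eq_mul]
  have := h N hN
  linarith

end Pool.Agent.Q31.GP
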