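import Pool.Agent.Q31.GP.Base

set_option autoImplicit false

/-! # Linear forms in consecutive gaps take values on both sides of their mean -/

open Filter Topology Finset

namespace Pool.Agent.Q31.GP

open SG (ord NZ)
open Pool.Agent.Y743.LR (dl)

lemma shift_sum (f : ℕ → ℝ) (N j : ℕ) :
    ∑ n ∈ Icc 1 N, f (n + j) = ∑ n ∈ Icc 1 (N + j), f n - ∑ n ∈ Icc 1 j, f n := by
  induction N with
  | zero => simp
  | succ N ih =>
    rw [Finset.sum_Icc_succ_top (by omega), ih, show N + 1 + j = (N + j) + 1 by ring,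
      Finset.sum_Icc_succ_top (by omega)]
    ring

lemma mean_shift (j : ℕ) (ε : ℝ) (hε : 0 < ε) :
    ∀ᶠ N : ℕ in atTop, |∑ n ∈ Icc 1 N, (dl (n + j) - 1)| ≤ ε * N := by
  have h1 := (tendsto_add_atTop_nat j).eventually (mean (ε / 2) (by positivity))
  filter_upwards [h1, eventually_ge_atTop
    (⌈4 * |∑ n ∈ Icc 1 j, (dl n - 1)| / ε⌉₊ + 2 * j)] with N h1 h2
  rw [shift_sum (fun n => dl n - 1)]
  have h3 : 4 * |∑ n ∈ Icc 1 j, (dl n - 1)| / ε + 2 * j ≤ N := by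
    have := Nat.le_ceil (4 * |∑ n ∈ Icc 1 j, (dl n - 1)| / ε)
    have h4 : ((⌈4 * |∑ n ∈ Icc 1 j, (dl n - 1)| / ε⌉₊ + 2 * j : ℕ) : ℝ) ≤ N := by exact_mod_cast h2
    push_cast at h4
    linarith
  have h4 : 4 * |∑ n ∈ Icc 1 j, (dl n - 1)| ≤ (N - 2 * j) * ε := by
    rw [← div_le_iff₀ hε]
    linarith
  push_cast at h1
  have h5 := abs_sub (∑ n ∈ Icc 1 (N + j), (dl n - 1)) (∑ n ∈ Icc 1 j, (dl n - 1))
  have h6 : (0 : ℝ) ≤ j := Nat.cast_nonneg j
  nlinarith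

lemma sq_shift (hRH : RiemannHypothesis) : ∃ C : ℝ, 0 < C ∧ ∀ N j : ℕ, 1 ≤ N →
    ∑ n ∈ Icc 1 N, (dl (n + j) - 1) ^ 2 ≤ C * (1 + j) * N := by
  obtain ⟨C, hC, h⟩ := sq hRH
  refine ⟨C, hC, fun N j hN => ?_⟩
  rw [shift_sum (fun n => (dl n - 1) ^ 2)]
  have h1 := h (N + j) (by omega)
  have h2 : 0 ≤ ∑ n ∈ Icc 1 j, (dl n - 1) ^ 2 := Finset.sum_nonneg fun _ _ => sq_nonneg _
  push_cast at h1
  have h3 : (1 : ℝ) ≤ N := by exact_mod_cast hN
  have h4 : (0 : ℝ) ≤ j := Nat.cast_nonneg j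
  nlinarith [mul_nonneg hC.le (mul_nonneg h4 (sub_nonneg.2 h3))]

/-- the general counting lemma -/
lemma count_pos {N : ℕ} {Y : ℕ → ℝ} {c C : ℝ} (hN : 1 ≤ N) (hc : 0 < c) (hC : 0 < C)
    (h1 : 4 * c * N ≤ ∑ n ∈ Icc 1 N, |Y n|) (h2 : |∑ n ∈ Icc 1 N, Y n| ≤ c * N)
    (h3 : ∑ n ∈ Icc 1 N, Y n ^ 2 ≤ C * N) :
    c ^ 2 / (4 * C) * N ≤ (((Icc 1 N).filter fun n => c ≤ Y n).card : ℝ) := by
  have hN0 : (0 : ℝ) < N := by exact_mod_cast hN
  obtain ⟨S, hS⟩ : ∃ S : Finset ℕ, S = (Icc 1 N).filter fun n => c ≤ Y n := ⟨_, rfl⟩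
  have h4 : ∑ n ∈ Icc 1 N, (|Y n| + Y n) / 2 ≤ c * N + ∑ n ∈ S, Y n := by
    have h5 : ∀ n ∈ Icc 1 N, (|Y n| + Y n) / 2 ≤ c + (if c ≤ Y n then Y n else 0) := by
      intro n _
      split_ifs with h
      · rw [abs_of_nonneg (by linarith)]
        linarith
      · rcases le_or_gt 0 (Y n) with h6 | h6
        · rw [abs_of_nonneg h6]; linarith
        · rw [abs_of_neg h6]; linarith
    refine (Finset.sum_le_sum h5).trans (le_of_eq ?_)
    rw [Finset.sum_add_distrib, Finset.sum_const, Nat.card_Icc, Nat.add_sub_cancel, nsmul_eq_mul,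
      ← Finset.sum_filter, ← hS]
    ring
  rw [← Finset.sum_div, Finset.sum_add_distrib] at h4
  have h5 : c / 2 * N ≤ ∑ n ∈ S, Y n := by
    have := (abs_le.1 h2).1
    linarith
  have h6 : (∑ n ∈ S, Y n) ^ 2 ≤ S.card * ∑ n ∈ S, Y n ^ 2 := sq_sum_le_card_mul_sum_sq
  have h7 : ∑ n ∈ S, Y n ^ 2 ≤ C * N := by
    refine (Finset.sum_le_sum_of_subset_of_nonneg ?_ fun _ _ _ => sq_nonneg _).trans h3
    rw [hS]
    exact Finset.filter_subset _ _
  have h8 : (c / 2 * N) ^ 2 ≤ S.card * (C * N) := by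
    have h9 : (c / 2 * N) ^ 2 ≤ (∑ n ∈ S, Y n) ^ 2 := pow_le_pow_left₀ (by positivity) h5 2
    exact (h9.trans h6).trans (mul_le_mul_of_nonneg_left h7 (Nat.cast_nonneg _))
  rw [← hS]
  have h9 : c ^ 2 / (4 * C) * N = (c / 2 * N) ^ 2 / (C * N) := by
    field_simp
    ring
  rw [h9, div_le_iff₀ (by positivity)]
  exact h8

/-- **half spaces through the mean** -/
theorem half (hRH : RiemannHypothesis) (k : ℕ) : ∃ ε : ℝ, 0 < ε ∧ ∀ᶠ N : ℕ in atTop,
    ∀ a : Fin k → ℝ, (∃ j, 1 ≤ |a j|) →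
      ε * N ≤ ({n : ℕ | 1 ≤ n ∧ n ≤ N ∧ ε ≤ ∑ j, a j * (dl (n + j) - 1)}.ncard : ℝ) := by
  classical
  obtain ⟨ε0, hε0, h0⟩ := Pool.Agent.Y743.LR.gaps hRH k
  obtain ⟨C, hC, hsq⟩ := sq_shift hRH
  obtain ⟨c, hc⟩ : ∃ c : ℝ, c = ε0 ^ 2 / 4 := ⟨_, rfl⟩
  have hc0 : 0 < c := by rw [hc]; positivity
  obtain ⟨C', hC'⟩ : ∃ C' : ℝ, C' = (k + 1) * ((k + 1) * (C * (1 + k))) := ⟨_, rfl⟩
  have hC'0 : 0 < C' := by rw [hC']; positivity
  have hmean : ∀ᶠ N : ℕ in atTop, ∀ j ∈ Finset.range k,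
      |∑ n ∈ Icc 1 N, (dl (n + j) - 1)| ≤ c / (k + 1) * N := by
    rw [Filter.eventually_all_finset]
    intro j _
    exact mean_shift j _ (by positivity)
  refine ⟨min c (c ^ 2 / (4 * C')), lt_min hc0 (by positivity), ?_⟩
  filter_upwards [h0, hmean, eventually_ge_atTop 1] with N h1 h2 hN a ha
  have hNr : (0 : ℝ) ≤ N := Nat.cast_nonneg N
  obtain ⟨j1, hj1⟩ := ha
  haveI : Nonempty (Fin k) := ⟨j1⟩
  obtain ⟨j0, hj0⟩ := Finite.exists_max fun j => |a j|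
  obtain ⟨M, hM⟩ : ∃ M : ℝ, M = |a j0| := ⟨_, rfl⟩
  have hM1 : 1 ≤ M := by rw [hM]; exact hj1.trans (hj0 j1)
  have hM0 : 0 < M := by linarith
  obtain ⟨b, hb⟩ : ∃ b : Fin k → ℝ, b = fun j => a j / M := ⟨_, rfl⟩
  have hb1 : ∀ j, |b j| ≤ 1 := by
    intro j
    rw [hb]
    simp only
    rw [abs_div, abs_of_pos hM0, div_le_one hM0, hM]
    exact hj0 j
  have hb2 : ∃ j, 1 ≤ |b j| := by
    refine ⟨j0, ?_⟩
    rw [hb]
    simp only
    rw [abs_div, abs_of_pos hM0, ← hM, div_self hM0.ne']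
  obtain ⟨Y, hY⟩ : ∃ Y : ℕ → ℝ, Y = fun n => ∑ j, b j * (dl (n + j) - 1) := ⟨_, rfl⟩
  -- absolute moment
  have e1 : 4 * c * N ≤ ∑ n ∈ Icc 1 N, |Y n| := by
    have h3 := h1 b hb2 (∑ j, b j)
    have h4 : {n : ℕ | 1 ≤ n ∧ n ≤ N ∧ ε0 ≤ |∑ j, b j * dl (n + j) - ∑ j, b j|} =
        (((Icc 1 N).filter fun n => ε0 ≤ |Y n| : Finset ℕ) : Set ℕ) := by
      ext n
      simp only [Set.mem_ofPred_eq, Finset.coe_filter, Finset.mem_Icc]
      have h5 : ∑ j, b j * dl (n + j) - ∑ j, b j = Y n := by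
        rw [hY]
        simp only
        rw [← Finset.sum_sub_distrib]
        exact Finset.sum_congr rfl fun j _ => by ring
      rw [h5]
      tauto
    rw [h4, Set.ncard_coe_finset] at h3
    have h5 : ε0 * (((Icc 1 N).filter fun n => ε0 ≤ |Y n|).card : ℝ) ≤ ∑ n ∈ Icc 1 N, |Y n| := by
      rw [mul_comm, ← nsmul_eq_mul, ← Finset.sum_const]
      refine (Finset.sum_le_sum fun n hn => (Finset.mem_filter.1 hn).2).trans ?_
      exact Finset.sum_le_sum_of_subset_of_nonneg (Finset.filter_subset _ _)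
        fun _ _ _ => abs_nonneg _
    have h6 := mul_le_mul_of_nonneg_left h3 hε0.le
    rw [hc]
    nlinarith
  have e2 : |∑ n ∈ Icc 1 N, Y n| ≤ c * N := by
    rw [hY]
    simp only
    rw [Finset.sum_comm]
    refine (Finset.abs_sum_le_sum_abs _ _).trans ?_
    have h3 : ∀ j ∈ (Finset.univ : Finset (Fin k)), |∑ n ∈ Icc 1 N, b j * (dl (n + j) - 1)| ≤
        c / (k + 1) * N := by
      intro j _
      rw [← Finset.mul_sum, abs_mul]
      have h4 := h2 j (Finset.mem_range.2 j.2)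
      have h5 := mul_le_mul (hb1 j) h4 (abs_nonneg _) zero_le_one
      linarith
    refine (Finset.sum_le_sum h3).trans ?_
    rw [Finset.sum_const, Finset.card_univ, Fintype.card_fin, nsmul_eq_mul]
    have h4 : (k : ℝ) * (c / (k + 1) * N) = k / (k + 1) * (c * N) := by ring
    rw [h4]
    have h5 : (k : ℝ) / (k + 1) ≤ 1 := by
      rw [div_le_one (by positivity)]
      linarith
    exact mul_le_of_le_one_left (by positivity) h5
  have e3 : ∑ n ∈ Icc 1 N, Y n ^ 2 ≤ C' * N := by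
    have h3 : ∀ n ∈ Icc 1 N, Y n ^ 2 ≤ (k + 1) * ∑ j : Fin k, (dl (n + j) - 1) ^ 2 := by
      intro n _
      rw [hY]
      simp only
      have h4 : (∑ j : Fin k, b j * (dl (n + j) - 1)) ^ 2 ≤
          (Finset.univ : Finset (Fin k)).card * ∑ j : Fin k, (b j * (dl (n + j) - 1)) ^ 2 :=
        sq_sum_le_card_mul_sum_sq
      rw [Finset.card_univ, Fintype.card_fin] at h4
      refine h4.trans ?_
      have h5 : ∑ j : Fin k, (b j * (dl (n + j) - 1)) ^ 2 ≤ ∑ j : Fin k, (dl (n + j) - 1) ^ 2 := by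
        refine Finset.sum_le_sum fun j _ => ?_
        rw [mul_pow]
        have h6 : b j ^ 2 ≤ 1 := by
          rw [← sq_abs]
          have := hb1 j
          have := abs_nonneg (b j)
          nlinarith
        exact mul_le_of_le_one_left (sq_nonneg _) h6
      have h6 : 0 ≤ ∑ j : Fin k, (dl (n + j) - 1) ^ 2 := Finset.sum_nonneg fun _ _ => sq_nonneg _
      have h7 : (0 : ℝ) ≤ k := Nat.cast_nonneg k
      nlinarith
    refine (Finset.sum_le_sum h3).trans ?_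
    rw [← Finset.mul_sum, Finset.sum_comm, hC', mul_assoc]
    refine mul_le_mul_of_nonneg_left ?_ (by positivity)
    have h4 : ∀ j ∈ (Finset.univ : Finset (Fin k)), ∑ n ∈ Icc 1 N, (dl (n + j) - 1) ^ 2 ≤
        C * (1 + k) * N := by
      intro j _
      refine (hsq N j hN).trans ?_
      have : ((j : ℕ) : ℝ) ≤ k := by exact_mod_cast j.2.le
      gcongr
    refine (Finset.sum_le_sum h4).trans ?_
    rw [Finset.sum_const, Finset.card_univ, Fintype.card_fin, nsmul_eq_mul]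
    have h5 : 0 ≤ C * (1 + k) * N := by positivity
    nlinarith
  have h3 := count_pos hN hc0 hC'0 e1 e2 e3
  have h4 : (((Icc 1 N).filter fun n => c ≤ Y n).card : ℝ) ≤
      ({n : ℕ | 1 ≤ n ∧ n ≤ N ∧ min c (c ^ 2 / (4 * C')) ≤
        ∑ j, a j * (dl (n + j) - 1)}.ncard : ℝ) := by
    rw [← Set.ncard_coe_finset]
    have hfin : {n : ℕ | 1 ≤ n ∧ n ≤ N ∧ min c (c ^ 2 / (4 * C')) ≤
        ∑ j, a j * (dl (n + j) - 1)}.Finite :=
      (Set.finite_Iic N).subset fun _ hn => hn.2.1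
    refine Nat.cast_le.2 (Set.ncard_le_ncard ?_ hfin)
    intro n hn
    rw [Finset.mem_coe, Finset.mem_filter, Finset.mem_Icc] at hn
    refine ⟨hn.1.1, hn.1.2, (min_le_left _ _).trans ?_⟩
    have h5 : ∑ j, a j * (dl (n + j) - 1) = M * Y n := by
      rw [hY, hb]
      simp only
      rw [Finset.mul_sum]
      refine Finset.sum_congr rfl fun j _ => ?_
      field_simp
    rw [h5]
    have := hn.2
    nlinarith
  refine le_trans ?_ (h3.trans h4)
  exact mul_le_mul_of_nonneg_right (min_le_right _ _) hNr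

end Pool.Agent.Q31.GP
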