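import Pool.Agent.Q31.GP.Half

set_option autoImplicit false

/-! # No monotone relation between linear forms in the gaps -/

open Filter Topology Finset

namespace Pool.Agent.Q31.GP

open SG (ord NZ)
open Pool.Agent.Y743.LR (dl)

/-- interlacing sets -/
lemma interlace (U B : Finset ℕ) (m : ℕ) (hm : 1 ≤ m)
    (h : ∀ n ∈ U, ∀ n' ∈ U, n < n' → n % m = n' % m → ∃ b ∈ B, n < b ∧ b < n' ∧ b % m = n % m) :
    U.card ≤ B.card + m := by
  classical
  have h1 : U.card ≤ ((range m).sigma fun ρ => range ((B.filter fun b => b % m = ρ).card + 1)).card := by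
    refine Finset.card_le_card_of_injOn
      (fun n => ⟨n % m, (B.filter fun b => b % m = n % m ∧ b ≤ n).card⟩) ?_ ?_
    · intro n _
      simp only [Finset.coe_sigma, Finset.coe_range, Set.mem_sigma_iff, Set.mem_Iio]
      refine ⟨Nat.mod_lt _ (by omega), ?_⟩
      rw [Nat.lt_succ_iff]
      refine Finset.card_le_card ?_
      intro b hb
      rw [Finset.mem_filter] at *
      exact ⟨hb.1, hb.2.1⟩
    · intro n hn n' hn' heq
      have h2 : n % m = n' % m := by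
        have := congrArg Sigma.fst heq
        exact this
      have h3 : (B.filter fun b => b % m = n % m ∧ b ≤ n).card =
          (B.filter fun b => b % m = n' % m ∧ b ≤ n').card := by
        simp only [Sigma.mk.injEq] at heq
        exact eq_of_heq heq.2
      have key : ∀ x ∈ U, ∀ y ∈ U, x % m = y % m → x < y →
          (B.filter fun b => b % m = x % m ∧ b ≤ x).card <
            (B.filter fun b => b % m = y % m ∧ b ≤ y).card := by
        intro x hx y hy hxy hlt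
        obtain ⟨b, hb, hb1, hb2, hb3⟩ := h x hx y hy hlt hxy
        refine Finset.card_lt_card (Finset.ssubset_iff_subset_ne.2 ⟨?_, ?_⟩)
        · intro c hc
          rw [Finset.mem_filter] at *
          exact ⟨hc.1, hc.2.1.trans hxy, by omega⟩
        · intro hcon
          have h4 : b ∈ B.filter fun b => b % m = y % m ∧ b ≤ y :=
            Finset.mem_filter.2 ⟨hb, hb3.trans hxy, hb2.le⟩
          rw [← hcon, Finset.mem_filter] at h4
          omega
      rcases lt_trichotomy n n' with h4 | h4 | h4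
      · have := key n hn n' hn' h2 h4
        omega
      · exact h4
      · have := key n' hn' n hn h2.symm h4
        omega
  rw [Finset.card_sigma] at h1
  simp only [Finset.card_range] at h1
  rw [Finset.sum_add_distrib, Finset.sum_const, Finset.card_range, smul_eq_mul, mul_one] at h1
  have h2 : ∑ ρ ∈ range m, (B.filter fun b => b % m = ρ).card = B.card := by
    refine (Finset.card_eq_sum_card_fiberwise fun b _ => ?_).symm
    exact Finset.mem_coe.2 (Finset.mem_range.2 (Nat.mod_lt _ (by omega)))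
  omega

/-- returning below a level -/
lemma return_set (L : ℕ → ℝ) (N m : ℕ) (hm : 1 ≤ m) (lam η ε : ℝ) (hε0 : 0 < ε) (hε : ε ≤ η / 4) :
    ((Icc 1 N).filter fun n => L n + η / 4 ≤ lam ∧ lam ≤ L (n + m) - η / 4).card ≤
    ((Icc 1 N).filter fun n => lam - η / 4 + ε ≤ L n ∧ L (n + m) ≤ lam + η / 4 - ε).card + m := by
  apply interlace _ _ m hm
  intro n hn n' hn' hlt hmod
  rw [Finset.mem_filter, Finset.mem_Icc] at hn hn'
  obtain ⟨s, hs⟩ : ∃ s, n' = n + s * m := by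
    have : m ∣ n' - n := (Nat.modEq_iff_dvd' hlt.le).1 hmod
    obtain ⟨s, hs⟩ := this
    exact ⟨s, by rw [mul_comm] at hs; omega⟩
  have hs1 : 1 ≤ s := by
    by_contra hcon
    have : s = 0 := by omega
    subst this
    omega
  -- the last time above the level
  have hex : ∃ r, 1 ≤ r ∧ r < s ∧ lam - η / 4 + ε ≤ L (n + r * m) ∧
      L (n + (r + 1) * m) < lam - η / 4 + ε := by
    by_contra hcon
    push Not at hcon
    have hall : ∀ r, 1 ≤ r → r ≤ s → lam - η / 4 + ε ≤ L (n + r * m) := by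
      intro r hr1
      induction r, hr1 using Nat.le_induction with
      | base =>
        intro _
        rw [one_mul]
        linarith [hn.2.2]
      | succ r hr ih =>
        intro hrs
        exact hcon r hr (by omega) (ih (by omega))
    have := hall s hs1 le_rfl
    rw [← hs] at this
    linarith [hn'.2.1]
  obtain ⟨r, hr1, hrs, h1, h2⟩ := hex
  have h3 : n + r * m < n' := by
    rw [hs]
    have : r * m < s * m := Nat.mul_lt_mul_of_pos_right hrs (by omega)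
    omega
  have h4 : 1 * m ≤ r * m := Nat.mul_le_mul_right m hr1
  refine ⟨n + r * m, ?_, by omega, h3, by simp⟩
  rw [Finset.mem_filter, Finset.mem_Icc]
  refine ⟨⟨by omega, by omega⟩, h1, ?_⟩
  have h5 : n + r * m + m = n + (r + 1) * m := by ring
  rw [h5]
  linarith

/-- from upward jumps to discordant pairs -/
lemma discordant (L : ℕ → ℝ) (N m : ℕ) (hm : 1 ≤ m) (η A ρ ε : ℝ) (hη : 0 < η) (_hA : 0 < A)
    (hε0 : 0 < ε) (hε : ε ≤ η / 4) (hρ : 0 < ρ)
    (hV : ρ * (⌈4 * A / η⌉₊ + 3 : ℕ) * N ≤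
      (((Icc 1 N).filter fun n => η ≤ L (n + m) - L n ∧ |L n| ≤ A).card : ℝ))
    (hN : 2 * m ≤ ρ * N) :
    ρ ^ 2 / 2 * N ^ 2 ≤ ((((Icc 1 N) ×ˢ (Icc 1 N)).filter fun p : ℕ × ℕ =>
      L p.1 + ε ≤ L p.2 ∧ L (p.2 + m) + ε ≤ L (p.1 + m)).card : ℝ) := by
  classical
  obtain ⟨Q, hQ⟩ : ∃ Q : ℕ, Q = ⌈4 * A / η⌉₊ + 3 := ⟨_, rfl⟩
  rw [← hQ] at hV
  obtain ⟨U, hU⟩ : ∃ U : ℕ → Finset ℕ, U = fun q : ℕ => (Icc 1 N).filter fun n =>
    L n + η / 4 ≤ (-A + (q : ℝ) * (η / 2)) ∧ (-A + (q : ℝ) * (η / 2)) ≤ L (n + m) - η / 4 := ⟨_, rfl⟩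
  have hsub : ((Icc 1 N).filter fun n => η ≤ L (n + m) - L n ∧ |L n| ≤ A) ⊆
      (range Q).biUnion U := by
    intro n hn
    rw [Finset.mem_filter] at hn
    obtain ⟨hn1, hn2, hn3⟩ := hn
    have hn4 := abs_le.1 hn3
    rw [Finset.mem_biUnion]
    obtain ⟨x, hx⟩ : ∃ x : ℝ, x = (L n + η / 4 + A) / (η / 2) := ⟨_, rfl⟩
    have hx0 : 0 ≤ x := by
      rw [hx]
      apply div_nonneg _ (by positivity)
      linarith
    have hx1 : x * (η / 2) = L n + η / 4 + A := by rw [hx]; field_simp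
    have hc1 := Nat.le_ceil x
    have hc2 := Nat.ceil_lt_add_one hx0
    refine ⟨⌈x⌉₊, ?_, ?_⟩
    · rw [Finset.mem_range, hQ]
      have h1 : x ≤ 4 * A / η + 1 / 2 := by
        have : x = (2 * (L n + A) / η) + 1 / 2 := by rw [hx]; field_simp; ring
        rw [this]
        have h2 : 2 * (L n + A) / η ≤ 4 * A / η := by
          apply div_le_div_of_nonneg_right _ hη.le
          linarith
        linarith
      have h2 := Nat.le_ceil (4 * A / η)
      have h3 : (⌈x⌉₊ : ℝ) < (⌈4 * A / η⌉₊ + 3 : ℕ) := by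
        push_cast
        linarith
      exact_mod_cast h3
    · rw [hU, Finset.mem_filter]
      refine ⟨hn1, ?_, ?_⟩
      · nlinarith
      · nlinarith
  have hcard : (((Icc 1 N).filter fun n => η ≤ L (n + m) - L n ∧ |L n| ≤ A).card : ℝ) ≤
      ∑ q ∈ range Q, ((U q).card : ℝ) := by
    have := (Finset.card_le_card hsub).trans Finset.card_biUnion_le
    exact_mod_cast this
  obtain ⟨q, hq⟩ : ∃ q, ρ * N ≤ ((U q).card : ℝ) := by
    by_contra hcon
    push Not at hcon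
    have hQ0 : 0 < Q := by omega
    have h1 : ∑ q ∈ range Q, ((U q).card : ℝ) < ∑ _q ∈ range Q, ρ * N :=
      Finset.sum_lt_sum_of_nonempty ⟨0, Finset.mem_range.2 hQ0⟩ fun q _ => hcon q
    rw [Finset.sum_const, Finset.card_range, nsmul_eq_mul] at h1
    have h2 : ρ * (Q : ℝ) * N = Q * (ρ * N) := by ring
    rw [h2] at hV
    linarith
  obtain ⟨lam, hlam⟩ : ∃ lam : ℝ, lam = -A + q * (η / 2) := ⟨_, rfl⟩
  have hret := return_set L N m hm lam η ε hε0 hε
  have hUq : U q = (Icc 1 N).filter fun n => L n + η / 4 ≤ lam ∧ lam ≤ L (n + m) - η / 4 := by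
    rw [hU, hlam]
  rw [hUq] at hq
  obtain ⟨U', hU'⟩ : ∃ U' : Finset ℕ, U' = (Icc 1 N).filter fun n =>
    L n + η / 4 ≤ lam ∧ lam ≤ L (n + m) - η / 4 := ⟨_, rfl⟩
  obtain ⟨B, hB⟩ : ∃ B : Finset ℕ, B = (Icc 1 N).filter fun n =>
    lam - η / 4 + ε ≤ L n ∧ L (n + m) ≤ lam + η / 4 - ε := ⟨_, rfl⟩
  rw [← hU'] at hq hret
  rw [← hB] at hret
  have hretr : (U'.card : ℝ) ≤ B.card + m := by exact_mod_cast hret
  have hNr : (0 : ℝ) ≤ N := Nat.cast_nonneg N
  have hBc : ρ * N / 2 ≤ B.card := by linarith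
  have hprod : U' ×ˢ B ⊆ ((Icc 1 N) ×ˢ (Icc 1 N)).filter fun p : ℕ × ℕ =>
      L p.1 + ε ≤ L p.2 ∧ L (p.2 + m) + ε ≤ L (p.1 + m) := by
    intro p hp
    rw [Finset.mem_product, hU', hB, Finset.mem_filter, Finset.mem_filter] at hp
    rw [Finset.mem_filter, Finset.mem_product]
    refine ⟨⟨hp.1.1, hp.2.1⟩, ?_, ?_⟩
    · linarith [hp.1.2.1, hp.2.2.1]
    · linarith [hp.1.2.2, hp.2.2.2]
  have h1 : ((U' ×ˢ B).card : ℝ) ≤ ((((Icc 1 N) ×ˢ (Icc 1 N)).filter fun p : ℕ × ℕ =>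
      L p.1 + ε ≤ L p.2 ∧ L (p.2 + m) + ε ≤ L (p.1 + m)).card : ℝ) := by
    exact_mod_cast Finset.card_le_card hprod
  refine le_trans ?_ h1
  rw [Finset.card_product, Nat.cast_mul]
  calc ρ ^ 2 / 2 * (N : ℝ) ^ 2 = ρ * N * (ρ * N / 2) := by ring
    _ ≤ _ := mul_le_mul hq hBc (by positivity) (Nat.cast_nonneg _)

/-- the coefficients of `L_{n+m} - L_n` -/
lemma diff_form {k m : ℕ} (b : Fin k → ℝ) : ∃ a : Fin (k + m) → ℝ,
    (∀ f : ℕ → ℝ, ∀ n : ℕ, ∑ i, a i * (f (n + i) - 1) =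
      ∑ j, b j * f (n + m + j) - ∑ j, b j * f (n + j)) ∧
    (∀ i : Fin (k + m), a i = (if h : m ≤ (i : ℕ) then b ⟨i - m, by omega⟩ else 0) -
      (if h : (i : ℕ) < k then b ⟨i, h⟩ else 0)) := by
  refine ⟨fun i => (if h : m ≤ (i : ℕ) then b ⟨i - m, by omega⟩ else 0) -
      (if h : (i : ℕ) < k then b ⟨i, h⟩ else 0), ?_, fun i => rfl⟩
  have key1 : ∀ g : ℕ → ℝ, ∑ i : Fin (k + m), (if h : m ≤ (i : ℕ) then b ⟨i - m, by omega⟩ else 0) *
      g i = ∑ j : Fin k, b j * g (m + j) := by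
    intro g
    rw [← (finCongr (show m + k = k + m by omega)).sum_comp, Fin.sum_univ_add]
    have h1 : ∑ i : Fin m, (if h : m ≤ ((finCongr (show m + k = k + m by omega)
        (Fin.castAdd k i) : Fin (k + m)) : ℕ) then
        b ⟨((finCongr (show m + k = k + m by omega) (Fin.castAdd k i) : Fin (k + m)) : ℕ) - m,
          by omega⟩ else 0) *
        g ((finCongr (show m + k = k + m by omega) (Fin.castAdd k i) : Fin (k + m)) : ℕ) = 0 := by
      refine Finset.sum_eq_zero fun i _ => ?_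
      rw [dif_neg, zero_mul]
      simp only [finCongr_apply, Fin.val_cast, Fin.val_castAdd, not_le]
      exact i.2
    rw [h1, zero_add]
    refine Finset.sum_congr rfl fun j _ => ?_
    have h2 : ((finCongr (show m + k = k + m by omega) (Fin.natAdd m j) : Fin (k + m)) : ℕ) =
        m + j := by
      simp
      omega
    rw [dif_pos (by omega)]
    have h3 : b ⟨((finCongr (show m + k = k + m by omega) (Fin.natAdd m j) : Fin (k + m)) : ℕ) - m,
        by omega⟩ = b j := by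
      congr 1
      apply Fin.ext
      simp only [h2]
      omega
    rw [h3, h2]
  have key2 : ∀ g : ℕ → ℝ, ∑ i : Fin (k + m), (if h : (i : ℕ) < k then b ⟨i, h⟩ else 0) *
      g i = ∑ j : Fin k, b j * g j := by
    intro g
    rw [Fin.sum_univ_add]
    have h1 : ∑ i : Fin m, (if h : ((Fin.natAdd k i : Fin (k + m)) : ℕ) < k then
        b ⟨((Fin.natAdd k i : Fin (k + m)) : ℕ), h⟩ else 0) * g ((Fin.natAdd k i : Fin (k + m)) : ℕ) =
        0 := by
      refine Finset.sum_eq_zero fun i _ => ?_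
      rw [dif_neg, zero_mul]
      simp
    rw [h1, add_zero]
    refine Finset.sum_congr rfl fun j _ => ?_
    rw [dif_pos (by simp)]
    rfl
  intro f n
  have h1 := key1 (fun i => f (n + i) - 1)
  have h2 := key2 (fun i => f (n + i) - 1)
  have h3 : ∑ i : Fin (k + m), ((if h : m ≤ (i : ℕ) then b ⟨i - m, by omega⟩ else 0) -
      (if h : (i : ℕ) < k then b ⟨i, h⟩ else 0)) * (f (n + i) - 1) =
      ∑ j : Fin k, b j * (f (n + (m + j)) - 1) - ∑ j : Fin k, b j * (f (n + j) - 1) := by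
    rw [← h1, ← h2, ← Finset.sum_sub_distrib]
    exact Finset.sum_congr rfl fun i _ => by ring
  rw [h3]
  have h4 : ∀ g : ℕ → ℝ, ∑ j : Fin k, b j * (g j - 1) = ∑ j : Fin k, b j * g j - ∑ j, b j := by
    intro g
    rw [← Finset.sum_sub_distrib]
    exact Finset.sum_congr rfl fun j _ => by ring
  rw [h4 (fun j => f (n + (m + j))), h4 (fun j => f (n + j))]
  simp only [← add_assoc]
  ring

lemma diff_big {k m : ℕ} (hm : 1 ≤ m) (b : Fin k → ℝ) (hb : ∃ j, 1 ≤ |b j|) (a : Fin (k + m) → ℝ)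
    (ha : ∀ i : Fin (k + m), a i = (if h : m ≤ (i : ℕ) then b ⟨i - m, by omega⟩ else 0) -
      (if h : (i : ℕ) < k then b ⟨i, h⟩ else 0)) :
    ∃ i, 1 ≤ |((k : ℝ) + 1) * a i| := by
  by_contra hcon
  push Not at hcon
  obtain ⟨κ, hκ⟩ : ∃ κ : ℝ, κ = 1 / ((k : ℝ) + 1) := ⟨_, rfl⟩
  have hk0 : (0 : ℝ) < (k : ℝ) + 1 := by positivity
  have hκ0 : 0 < κ := by rw [hκ]; positivity
  have h1 : ∀ i, |a i| < κ := by
    intro i
    have := hcon i
    rw [abs_mul, abs_of_pos hk0] at this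
    rw [hκ, lt_div_iff₀ hk0]
    linarith
  have h2 : ∀ j : ℕ, ∀ hj : j < k, |b ⟨j, hj⟩| ≤ ((j : ℝ) + 1) * κ := by
    intro j
    induction j using Nat.strong_induction_on with
    | _ j ih =>
      intro hj
      have h3 := ha ⟨j, by omega⟩
      have h4 := (h1 ⟨j, by omega⟩).le
      simp only [dif_pos hj] at h3
      by_cases hmj : m ≤ j
      · rw [dif_pos hmj] at h3
        have h5 := ih (j - m) (by omega) (by omega)
        have h6 : b ⟨j, hj⟩ = b ⟨j - m, by omega⟩ - a ⟨j, by omega⟩ := by rw [h3]; ring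
        rw [h6]
        refine (abs_sub _ _).trans ?_
        have h7 : ((j - m : ℕ) : ℝ) + 1 ≤ j := by
          have : j - m + 1 ≤ j := by omega
          exact_mod_cast this
        have h8 : (((j - m : ℕ) : ℝ) + 1) * κ ≤ j * κ := mul_le_mul_of_nonneg_right h7 hκ0.le
        linarith
      · rw [dif_neg hmj] at h3
        have h6 : b ⟨j, hj⟩ = -a ⟨j, by omega⟩ := by rw [h3]; ring
        rw [h6, abs_neg]
        have : (0 : ℝ) ≤ j * κ := by positivity
        linarith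
  obtain ⟨j, hj⟩ := hb
  have h3 := h2 j j.2
  have h4 : ((j : ℕ) : ℝ) + 1 < (k : ℝ) + 1 := by
    have : (j : ℕ) < k := j.2
    have : ((j : ℕ) : ℝ) < k := by exact_mod_cast this
    linarith
  have h5 : ((j : ℕ) : ℝ) * κ + κ < 1 := by
    have h6 : (((j : ℕ) : ℝ) + 1) * κ < ((k : ℝ) + 1) * κ := mul_lt_mul_of_pos_right h4 hκ0
    have h7 : ((k : ℝ) + 1) * κ = 1 := by rw [hκ]; field_simp
    linarith
  have h6 : b ⟨(j : ℕ), j.2⟩ = b j := rfl
  rw [h6] at h3
  linarith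

/-- **no monotone relation** -/
theorem mono (hRH : RiemannHypothesis) (k m : ℕ) (hm : 1 ≤ m) : ∃ ε : ℝ, 0 < ε ∧
    ∀ᶠ N : ℕ in atTop, ∀ c : Fin k → ℝ, (∃ j, 1 ≤ |c j|) →
      ε * N ^ 2 ≤ ({p : ℕ × ℕ | (1 ≤ p.1 ∧ p.1 ≤ N) ∧ (1 ≤ p.2 ∧ p.2 ≤ N) ∧
        ∑ j, c j * dl (p.1 + j) + ε ≤ ∑ j, c j * dl (p.2 + j) ∧
        ∑ j, c j * dl (p.2 + m + j) + ε ≤ ∑ j, c j * dl (p.1 + m + j)}.ncard : ℝ) := by
  classical
  obtain ⟨ε1, hε1, h1⟩ := half hRH (k + m)
  obtain ⟨C, hC, hsq⟩ := sq_shift hRH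
  obtain ⟨η, hη⟩ : ∃ η : ℝ, η = ε1 / ((k : ℝ) + 1) := ⟨_, rfl⟩
  have hη0 : 0 < η := by rw [hη]; positivity
  -- second moment of the form
  obtain ⟨C', hC'⟩ : ∃ C' : ℝ, C' = 2 * (k * (k * (C * (1 + k)))) + 2 * k ^ 2 + 1 := ⟨_, rfl⟩
  have hC'0 : 0 < C' := by rw [hC']; positivity
  obtain ⟨A, hA⟩ : ∃ A : ℝ, A = Real.sqrt (4 * C' / ε1) := ⟨_, rfl⟩
  have hA0 : 0 < A := by rw [hA]; exact Real.sqrt_pos.2 (by positivity)
  have hA2 : A ^ 2 = 4 * C' / ε1 := by rw [hA]; exact Real.sq_sqrt (by positivity)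
  obtain ⟨Q, hQ⟩ : ∃ Q : ℕ, Q = ⌈4 * A / η⌉₊ + 3 := ⟨_, rfl⟩
  have hQ0 : (0 : ℝ) < Q := by
    have : 0 < Q := by omega
    exact_mod_cast this
  obtain ⟨ρ, hρ⟩ : ∃ ρ : ℝ, ρ = 3 / 4 * ε1 / Q := ⟨_, rfl⟩
  have hρ0 : 0 < ρ := by rw [hρ]; positivity
  refine ⟨min (η / 4) (ρ ^ 2 / 2), lt_min (by positivity) (by positivity), ?_⟩
  obtain ⟨ε, hε⟩ : ∃ ε : ℝ, ε = min (η / 4) (ρ ^ 2 / 2) := ⟨_, rfl⟩
  have hε0 : 0 < ε := by rw [hε]; exact lt_min (by positivity) (by positivity)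
  have hεη : ε ≤ η / 4 := by rw [hε]; exact min_le_left _ _
  have hερ : ε ≤ ρ ^ 2 / 2 := by rw [hε]; exact min_le_right _ _
  rw [← hε]
  filter_upwards [h1, eventually_ge_atTop 1, eventually_ge_atTop ⌈2 * m / ρ⌉₊] with N h2 hN hNm c hc
  have hNr : (0 : ℝ) ≤ N := Nat.cast_nonneg N
  have hNm' : 2 * (m : ℝ) ≤ ρ * N := by
    have : 2 * m / ρ ≤ N := (Nat.le_ceil _).trans (by exact_mod_cast hNm)
    rw [div_le_iff₀ hρ0] at this
    linarith
  obtain ⟨j1, hj1⟩ := hc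
  haveI : Nonempty (Fin k) := ⟨j1⟩
  obtain ⟨j0, hj0⟩ := Finite.exists_max fun j => |c j|
  obtain ⟨M, hM⟩ : ∃ M : ℝ, M = |c j0| := ⟨_, rfl⟩
  have hM1 : 1 ≤ M := by rw [hM]; exact hj1.trans (hj0 j1)
  have hM0 : 0 < M := by linarith
  obtain ⟨b, hb⟩ : ∃ b : Fin k → ℝ, b = fun j => c j / M := ⟨_, rfl⟩
  have hb1 : ∀ j, |b j| ≤ 1 := by
    intro j
    rw [hb]
    simp only
    rw [abs_div, abs_of_pos hM0, div_le_one hM0, hM]
    exact hj0 j
  have hb2 : ∃ j, 1 ≤ |b j| := by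
    refine ⟨j0, ?_⟩
    rw [hb]
    simp only
    rw [abs_div, abs_of_pos hM0, ← hM, div_self hM0.ne']
  obtain ⟨a, ha1, ha2⟩ := diff_form (k := k) (m := m) b
  have ha3 := diff_big hm b hb2 a ha2
  have h3 := h2 (fun i => ((k : ℝ) + 1) * a i) ha3
  obtain ⟨L, hL⟩ : ∃ L : ℕ → ℝ, L = fun n => ∑ j, b j * dl (n + j) := ⟨_, rfl⟩
  -- upward jumps
  have h4 : {n : ℕ | 1 ≤ n ∧ n ≤ N ∧ ε1 ≤ ∑ i, ((k : ℝ) + 1) * a i * (dl (n + i) - 1)} =
      (((Icc 1 N).filter fun n => η ≤ L (n + m) - L n : Finset ℕ) : Set ℕ) := by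
    ext n
    simp only [Set.mem_ofPred_eq, Finset.coe_filter, Finset.mem_Icc]
    have h5 : ∑ i, ((k : ℝ) + 1) * a i * (dl (n + i) - 1) = ((k : ℝ) + 1) * (L (n + m) - L n) := by
      rw [hL]
      simp only
      rw [← ha1 dl n, Finset.mul_sum]
      exact Finset.sum_congr rfl fun i _ => by ring
    rw [h5, hη, div_le_iff₀ (by positivity), mul_comm (L (n + m) - L n)]
    tauto
  rw [h4, Set.ncard_coe_finset] at h3
  -- tightness
  have h5 : ∑ n ∈ Icc 1 N, L n ^ 2 ≤ C' * N := by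
    have h6 : ∀ n ∈ Icc 1 N, L n ^ 2 ≤ 2 * (k * ∑ j : Fin k, (dl (n + j) - 1) ^ 2) + 2 * k ^ 2 := by
      intro n _
      have h7 : L n = ∑ j : Fin k, b j * (dl (n + j) - 1) + ∑ j : Fin k, b j := by
        rw [hL, ← Finset.sum_add_distrib]
        exact Finset.sum_congr rfl fun j _ => by ring
      have h8 : |∑ j : Fin k, b j| ≤ k := by
        refine (Finset.abs_sum_le_sum_abs _ _).trans ?_
        refine (Finset.sum_le_sum fun j _ => hb1 j).trans ?_
        simp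
      have h9 : (∑ j : Fin k, b j * (dl (n + j) - 1)) ^ 2 ≤
          k * ∑ j : Fin k, (dl (n + j) - 1) ^ 2 := by
        have h10 : (∑ j : Fin k, b j * (dl (n + j) - 1)) ^ 2 ≤
            (Finset.univ : Finset (Fin k)).card * ∑ j : Fin k, (b j * (dl (n + j) - 1)) ^ 2 :=
          sq_sum_le_card_mul_sum_sq
        rw [Finset.card_univ, Fintype.card_fin] at h10
        refine h10.trans ?_
        refine mul_le_mul_of_nonneg_left (Finset.sum_le_sum fun j _ => ?_) (Nat.cast_nonneg k)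
        rw [mul_pow]
        have h11 : b j ^ 2 ≤ 1 := by
          rw [← sq_abs]
          have := hb1 j
          have := abs_nonneg (b j)
          nlinarith
        exact mul_le_of_le_one_left (sq_nonneg _) h11
      have h10 : (∑ j : Fin k, b j) ^ 2 ≤ (k : ℝ) ^ 2 := by
        rw [← sq_abs]
        exact pow_le_pow_left₀ (abs_nonneg _) h8 2
      rw [h7]
      nlinarith [sq_nonneg (∑ j : Fin k, b j * (dl (n + j) - 1) - ∑ j : Fin k, b j)]
    refine (Finset.sum_le_sum h6).trans ?_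
    rw [Finset.sum_add_distrib, ← Finset.mul_sum, ← Finset.mul_sum, Finset.sum_comm,
      Finset.sum_const, Nat.card_Icc, Nat.add_sub_cancel, nsmul_eq_mul]
    have h7 : ∀ j ∈ (Finset.univ : Finset (Fin k)), ∑ n ∈ Icc 1 N, (dl (n + j) - 1) ^ 2 ≤
        C * (1 + k) * N := by
      intro j _
      refine (hsq N j hN).trans ?_
      have : ((j : ℕ) : ℝ) ≤ k := by exact_mod_cast j.2.le
      gcongr
    have h8 := Finset.sum_le_sum h7
    rw [Finset.sum_const, Finset.card_univ, Fintype.card_fin, nsmul_eq_mul] at h8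
    have h9 := mul_le_mul_of_nonneg_left h8 (Nat.cast_nonneg k : (0 : ℝ) ≤ k)
    rw [hC']
    nlinarith
  have h6 : (((Icc 1 N).filter fun n => A < |L n|).card : ℝ) ≤ ε1 / 4 * N := by
    have h7 : A ^ 2 * (((Icc 1 N).filter fun n => A < |L n|).card : ℝ) ≤ ∑ n ∈ Icc 1 N, L n ^ 2 := by
      rw [mul_comm, ← nsmul_eq_mul, ← Finset.sum_const]
      refine (Finset.sum_le_sum fun n hn => ?_).trans
        (Finset.sum_le_sum_of_subset_of_nonneg (Finset.filter_subset _ _) fun _ _ _ => sq_nonneg _)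
      rw [← sq_abs (L n)]
      exact pow_le_pow_left₀ hA0.le (Finset.mem_filter.1 hn).2.le 2
    have h8 := h7.trans h5
    rw [hA2] at h8
    have h9 : 4 * C' / ε1 * (((Icc 1 N).filter fun n => A < |L n|).card : ℝ) =
        C' * (4 / ε1 * (((Icc 1 N).filter fun n => A < |L n|).card : ℝ)) := by ring
    rw [h9] at h8
    have h10 := le_of_mul_le_mul_left h8 hC'0
    have h11 : 4 / ε1 * (((Icc 1 N).filter fun n => A < |L n|).card : ℝ) * (ε1 / 4) ≤
        N * (ε1 / 4) := mul_le_mul_of_nonneg_right h10 (by positivity)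
    have h12 : 4 / ε1 * (((Icc 1 N).filter fun n => A < |L n|).card : ℝ) * (ε1 / 4) =
        (((Icc 1 N).filter fun n => A < |L n|).card : ℝ) := by field_simp
    rw [h12] at h11
    linarith
  have h7 : ((Icc 1 N).filter fun n => η ≤ L (n + m) - L n).card ≤
      ((Icc 1 N).filter fun n => η ≤ L (n + m) - L n ∧ |L n| ≤ A).card +
      ((Icc 1 N).filter fun n => A < |L n|).card := by
    refine (Finset.card_le_card ?_).trans (Finset.card_union_le _ _)
    intro n hn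
    rw [Finset.mem_filter] at hn
    rw [Finset.mem_union, Finset.mem_filter, Finset.mem_filter]
    rcases le_or_gt |L n| A with h | h
    · exact Or.inl ⟨hn.1, hn.2, h⟩
    · exact Or.inr ⟨hn.1, h⟩
  have h7r : (((Icc 1 N).filter fun n => η ≤ L (n + m) - L n).card : ℝ) ≤
      (((Icc 1 N).filter fun n => η ≤ L (n + m) - L n ∧ |L n| ≤ A).card : ℝ) +
      (((Icc 1 N).filter fun n => A < |L n|).card : ℝ) := by exact_mod_cast h7
  have h8 : ρ * ((⌈4 * A / η⌉₊ + 3 : ℕ) : ℝ) * N ≤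
      (((Icc 1 N).filter fun n => η ≤ L (n + m) - L n ∧ |L n| ≤ A).card : ℝ) := by
    rw [← hQ, hρ]
    have : 3 / 4 * ε1 / (Q : ℝ) * Q * N = 3 / 4 * ε1 * N := by field_simp
    rw [this]
    linarith
  have h9 := discordant L N m hm η A ρ ε hη0 hA0 hε0 hεη hρ0 h8 hNm'
  have h10 : ((((Icc 1 N) ×ˢ (Icc 1 N)).filter fun p : ℕ × ℕ =>
      L p.1 + ε ≤ L p.2 ∧ L (p.2 + m) + ε ≤ L (p.1 + m)).card : ℝ) ≤
      ({p : ℕ × ℕ | (1 ≤ p.1 ∧ p.1 ≤ N) ∧ (1 ≤ p.2 ∧ p.2 ≤ N) ∧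
        ∑ j, c j * dl (p.1 + j) + ε ≤ ∑ j, c j * dl (p.2 + j) ∧
        ∑ j, c j * dl (p.2 + m + j) + ε ≤ ∑ j, c j * dl (p.1 + m + j)}.ncard : ℝ) := by
    rw [← Set.ncard_coe_finset]
    have hfin : {p : ℕ × ℕ | (1 ≤ p.1 ∧ p.1 ≤ N) ∧ (1 ≤ p.2 ∧ p.2 ≤ N) ∧
        ∑ j, c j * dl (p.1 + j) + ε ≤ ∑ j, c j * dl (p.2 + j) ∧
        ∑ j, c j * dl (p.2 + m + j) + ε ≤ ∑ j, c j * dl (p.1 + m + j)}.Finite :=
      ((Set.finite_Iic N).prod (Set.finite_Iic N)).subset fun p hp => ⟨hp.1.2, hp.2.1.2⟩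
    refine Nat.cast_le.2 (Set.ncard_le_ncard ?_ hfin)
    intro p hp
    rw [Finset.mem_coe, Finset.mem_filter, Finset.mem_product, Finset.mem_Icc, Finset.mem_Icc] at hp
    obtain ⟨⟨hp1, hp2⟩, hp3, hp4⟩ := hp
    have hLM : ∀ n, ∑ j, c j * dl (n + j) = M * L n := by
      intro n
      rw [hL, hb]
      simp only
      rw [Finset.mul_sum]
      refine Finset.sum_congr rfl fun j _ => ?_
      field_simp
    refine ⟨hp1, hp2, ?_, ?_⟩
    · rw [hLM, hLM]
      nlinarith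
    · rw [hLM, hLM]
      nlinarith
  refine le_trans ?_ (h9.trans h10)
  exact mul_le_mul_of_nonneg_right hερ (by positivity)

end Pool.Agent.Q31.GP
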